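import Pool.Agent.H389R2.Dim.Lower
import Pool.Agent.W92.DP.Defs

/-!
Approximate double points of a curve (one excursion in between): closedness and passage to the
limit (adapted from `Pool.Agent.W822.PD.ClosedC` and `Pool.Agent.W822.PD.LL`).
-/

set_option autoImplicit false

namespace Pool.Agent.TH966.DP

open Set Filter Topology Metric Pool.Agent.H389R2.Dim MeasureTheory
open Pool.Agent.W92.DP H984N
open scoped ENNReal NNReal

/-- Approximate double points. -/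
def DD (η ε : ℝ) (B : Set ℂ) (f : C(unitInterval, ℂ)) : Set ℂ :=
  {z | z ∈ B ∧ ∃ s t : unitInterval, s ≤ t ∧ dist (f s) z ≤ ε ∧ dist (f t) z ≤ ε ∧
    ∃ u : unitInterval, (s ≤ u ∧ u ≤ t) ∧ η ≤ dist (f u) z + ε}

theorem DD_mono {η ε ε' : ℝ} (h : ε ≤ ε') (B : Set ℂ) (f : C(unitInterval, ℂ)) :
    DD η ε B f ⊆ DD η ε' B f := by
  rintro z ⟨hz, s, t, h1, h2, h3, u, hu, h4⟩
  exact ⟨hz, s, t, h1, h2.trans h, h3.trans h, u, hu, h4.trans (by linarith)⟩

/-- The closed condition. -/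
def Cnd (η ε : ℝ) (K : Set ℂ) : Set (C(unitInterval, ℂ) ×
    (K × unitInterval × unitInterval × unitInterval)) :=
  {p | p.2.2.1 ≤ p.2.2.2.1 ∧ dist (p.1 p.2.2.1) (p.2.1 : ℂ) ≤ ε ∧
    dist (p.1 p.2.2.2.1) (p.2.1 : ℂ) ≤ ε ∧
    (p.2.2.1 ≤ p.2.2.2.2 ∧ p.2.2.2.2 ≤ p.2.2.2.1) ∧
      η ≤ dist (p.1 p.2.2.2.2) (p.2.1 : ℂ) + ε}

theorem closed_cnd (η ε : ℝ) {K : Set ℂ} : IsClosed (Cnd η ε K) := by
  have c1 : Continuous (fun p : C(unitInterval, ℂ) ×
      (K × unitInterval × unitInterval × unitInterval) => p.1 p.2.2.1) := by fun_prop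
  have c2 : Continuous (fun p : C(unitInterval, ℂ) ×
      (K × unitInterval × unitInterval × unitInterval) => p.1 p.2.2.2.1) := by
    fun_prop
  have c3 : Continuous (fun p : C(unitInterval, ℂ) ×
      (K × unitInterval × unitInterval × unitInterval) => p.1 p.2.2.2.2) := by
    fun_prop
  have c0 : Continuous (fun p : C(unitInterval, ℂ) ×
      (K × unitInterval × unitInterval × unitInterval) => (p.2.1 : ℂ)) := by
    fun_prop
  refine IsClosed.inter ?_ (IsClosed.inter ?_ (IsClosed.inter ?_ (IsClosed.inter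
    (IsClosed.inter ?_ ?_) ?_)))
  · exact isClosed_le (by fun_prop) (by fun_prop)
  · exact isClosed_le (c1.dist c0) continuous_const
  · exact isClosed_le (c2.dist c0) continuous_const
  · exact isClosed_le (by fun_prop) (by fun_prop)
  · exact isClosed_le (by fun_prop) (by fun_prop)
  · exact isClosed_le continuous_const ((c3.dist c0).add continuous_const)

/-- Upper semicontinuity. -/
theorem isOpen_DD_sub {η ε : ℝ} {B O : Set ℂ} (hB : IsCompact B) (hO : IsOpen O) :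
    IsOpen {f : C(unitInterval, ℂ) | DD η ε B f ⊆ O} := by
  have hK : IsCompact (B \ O) := hB.diff hO
  have : CompactSpace ↥(B \ O) := isCompact_iff_compactSpace.1 hK
  have h1 := closed_cnd η ε (K := B \ O)
  have h2 := isClosedMap_fst_of_compactSpace _ h1
  have h3 : {f : C(unitInterval, ℂ) | DD η ε B f ⊆ O}ᶜ = Prod.fst '' Cnd η ε (B \ O) := by
    ext f
    simp only [mem_compl_iff, mem_ofPred_eq, not_subset, mem_image, Prod.exists]
    constructor
    · rintro ⟨z, ⟨hz, s, t, h1, h2, h3, u, hu, h4⟩, hzO⟩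
      exact ⟨f, ⟨z, hz, hzO⟩, s, t, u, ⟨h1, h2, h3, hu, h4⟩, rfl⟩
    · rintro ⟨g, ⟨z, hz, hzO⟩, s, t, u, ⟨h1, h2, h3, hu, h4⟩, rfl⟩
      exact ⟨z, ⟨hz, s, t, h1, h2, h3, u, hu, h4⟩, hzO⟩
  rw [← isClosed_compl_iff, h3]
  exact h2

theorem isClosed_good_DD {t δ c η ε : ℝ} {B : Set ℂ} (hB : IsCompact B) :
    IsClosed {f : C(unitInterval, ℂ) | Good t δ c (DD η ε B f)} := by
  have h : {f : C(unitInterval, ℂ) | Good t δ c (DD η ε B f)} =
      ⋂ s : Finset (ℂ × ℝ), {f : C(unitInterval, ℂ) | (∀ p ∈ s, δ ≤ p.2) →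
        DD η ε B f ⊆ ⋃ p ∈ s, ball p.1 p.2 → c ≤ ∑ p ∈ s, p.2 ^ t} := by
    ext K; simp [Good]
  rw [h]
  apply isClosed_iInter
  intro s
  by_cases h1 : (∀ p ∈ s, δ ≤ p.2) ∧ ¬ c ≤ ∑ p ∈ s, p.2 ^ t
  · have h2 : {f : C(unitInterval, ℂ) | (∀ p ∈ s, δ ≤ p.2) →
        DD η ε B f ⊆ ⋃ p ∈ s, ball p.1 p.2 → c ≤ ∑ p ∈ s, p.2 ^ t} =
        {f : C(unitInterval, ℂ) | DD η ε B f ⊆ ⋃ p ∈ s, ball p.1 p.2}ᶜ := by
      ext K
      simp only [Set.mem_ofPred_eq, Set.mem_compl_iff]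
      constructor
      · intro h3 h4; exact h1.2 (h3 h1.1 h4)
      · intro h3 _ h4; exact absurd h4 h3
    rw [h2]
    exact (isOpen_DD_sub hB (isOpen_biUnion fun p _ => isOpen_ball)).isClosed_compl
  · have h2 : {f : C(unitInterval, ℂ) | (∀ p ∈ s, δ ≤ p.2) →
        DD η ε B f ⊆ ⋃ p ∈ s, ball p.1 p.2 → c ≤ ∑ p ∈ s, p.2 ^ t} = univ := by
      ext K
      simp only [Set.mem_ofPred_eq, Set.mem_univ, iff_true]
      intro h3 _
      by_contra h4
      exact h1 ⟨h3, h4⟩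
    rw [h2]; exact isClosed_univ

theorem isCompact_DD {η ε : ℝ} {B : Set ℂ} (hB : IsCompact B) (f : C(unitInterval, ℂ)) :
    IsCompact (DD η ε B f) := by
  have : CompactSpace ↥B := isCompact_iff_compactSpace.1 hB
  have h1 := closed_cnd η ε (K := B)
  have hc : Continuous (fun p : ↥B × unitInterval × unitInterval × unitInterval =>
      (f, p)) := by
    fun_prop
  have h2 := (h1.preimage hc).isCompact
  have h3 : DD η ε B f =
      (fun p : ↥B × unitInterval × unitInterval × unitInterval => (p.1 : ℂ)) ''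
      ((fun p : ↥B × unitInterval × unitInterval × unitInterval => (f, p)) ⁻¹'
        Cnd η ε B) := by
    ext z
    simp only [mem_image, mem_preimage, Prod.exists]
    constructor
    · rintro ⟨hz, s, t, h1, h2, h3, u, hu, h4⟩
      exact ⟨⟨z, hz⟩, s, t, u, ⟨h1, h2, h3, hu, h4⟩, rfl⟩
    · rintro ⟨⟨z, hz⟩, s, t, u, ⟨h1, h2, h3, hu, h4⟩, rfl⟩
      exact ⟨hz, s, t, h1, h2, h3, u, hu, h4⟩
  rw [h3]
  exact h2.image (by fun_prop)

/-- Passing to `ε = 0`. -/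
theorem good_zero {t δ c η : ℝ} {B : Set ℂ} (hB : IsCompact B) (f : C(unitInterval, ℂ))
    (h : ∀ n : ℕ, Good t δ c (DD η (1 / ((n : ℝ) + 1)) B f)) : Good t δ c (DD η 0 B f) := by
  intro s hs hcov
  set O : Set ℂ := ⋃ p ∈ s, ball p.1 p.2 with hOdef
  have hO : IsOpen O := isOpen_biUnion fun p _ => isOpen_ball
  by_contra hcon
  -- all approximations stick out of `O`
  have hne : ∀ n : ℕ, (DD η (1 / ((n : ℝ) + 1)) (B \ O) f).Nonempty := by
    intro n
    by_contra hemp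
    apply hcon
    apply h n s hs
    rintro z ⟨hz, hh⟩
    by_contra hzO
    exact hemp ⟨z, ⟨hz, hzO⟩, hh⟩
  have hK : IsCompact (B \ O) := hB.diff hO
  have : CompactSpace ↥(B \ O) := isCompact_iff_compactSpace.1 hK
  have hc : Continuous (fun p : ↥(B \ O) × unitInterval × unitInterval ×
      unitInterval => (f, p)) := by fun_prop
  let A : ℕ → Set (↥(B \ O) × unitInterval × unitInterval × unitInterval) :=
    fun n => (fun p => (f, p)) ⁻¹' Cnd η (1 / ((n : ℝ) + 1)) (B \ O)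
  have hAcl : ∀ n, IsClosed (A n) := fun n => (closed_cnd η _).preimage hc
  have hle : ∀ n : ℕ, 1 / (((n + 1 : ℕ) : ℝ) + 1) ≤ 1 / ((n : ℝ) + 1) := fun n =>
    Nat.one_div_le_one_div (Nat.le_succ n)
  have hAanti : ∀ n, A (n + 1) ⊆ A n := by
    rintro n p ⟨h1, h2, h3, hu, h4⟩
    exact ⟨h1, h2.trans (hle n), h3.trans (hle n), hu, h4.trans (by linarith [hle n])⟩
  have hAne : ∀ n, (A n).Nonempty := by
    intro n
    obtain ⟨z, hz, s', t', h1, h2, h3, u, hu, h4⟩ := hne n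
    exact ⟨(⟨z, hz⟩, s', t', u), h1, h2, h3, hu, h4⟩
  obtain ⟨p, hp⟩ := IsCompact.nonempty_iInter_of_sequence_nonempty_isCompact_isClosed A
    hAanti hAne (hAcl 0).isCompact hAcl
  rw [mem_iInter] at hp
  have hlim : Tendsto (fun n : ℕ => 1 / ((n : ℝ) + 1)) atTop (𝓝 0) :=
    tendsto_one_div_add_atTop_nhds_zero_nat
  have hz : (p.1 : ℂ) ∈ DD η 0 B f := by
    refine ⟨p.1.2.1, p.2.1, p.2.2.1, (hp 0).1, ?_, ?_, p.2.2.2, (hp 0).2.2.2.1, ?_⟩
    · exact ge_of_tendsto' hlim fun n => (hp n).2.1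
    · exact ge_of_tendsto' hlim fun n => (hp n).2.2.1
    · exact ge_of_tendsto' ((tendsto_const_nhds).add hlim) fun n => (hp n).2.2.2.2
  exact p.1.2.2 (hcov hz)

/-- Abstract passage to the limit. -/
theorem ae_dimX {μs : ℕ → ProbabilityMeasure X} {μ : ProbabilityMeasure X}
    (hμ : Tendsto μs atTop (𝓝 μ)) {t : ℝ} (ht : 0 < t) (T : C(unitInterval, ℂ) → Set ℂ)
    (h : ∀ ε : ℝ≥0∞, 0 < ε → ∃ (c η : ℝ) (B : Set ℂ), 0 < c ∧ IsCompact B ∧
      (∀ f, DD η 0 B f ⊆ T f) ∧ ∀ ε' : ℝ, 0 < ε' → ∀ᶠ i in atTop,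
        (μs i : Measure X) {γ : X | ¬ Good t ε' c (DD η ε' B γ.1)} ≤ ε) :
    ∀ᵐ p : X ∂(μ : Measure X), ENNReal.ofReal t ≤ dimH (T p.1) := by
  rw [ae_iff, ← nonpos_iff_eq_zero]
  apply ENNReal.le_of_forall_pos_le_add
  intro ε hε _
  obtain ⟨c, η, B, hc, hB, hT, h1⟩ := h ε (by exact_mod_cast hε)
  have hopen : ∀ ε' : ℝ, IsOpen {p : X | ¬ Good t ε' c (DD η ε' B p.1)} := by
    intro ε'
    exact ((isClosed_good_DD (t := t) (δ := ε') (c := c) (η := η) (ε := ε') hB).preimage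
      continuous_fst).isOpen_compl
  have h2 : ∀ ε' : ℝ, 0 < ε' →
      (μ : Measure X) {p : X | ¬ Good t ε' c (DD η ε' B p.1)} ≤ ε := by
    intro ε' hε'
    refine (ProbabilityMeasure.le_liminf_measure_open_of_tendsto hμ (hopen ε')).trans ?_
    exact liminf_le_of_frequently_le (h1 ε' hε').frequently
  set Bd : ℕ → Set X := fun n =>
    {p : X | ¬ Good t (1 / ((n : ℝ) + 1)) c (DD η (1 / ((n : ℝ) + 1)) B p.1)} with hBd
  have hmono : Monotone Bd := by
    intro n n' hnn p hp hG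
    apply hp
    have h3 := hG.anti (Nat.one_div_le_one_div (α := ℝ) hnn)
    exact h3.mono (DD_mono (Nat.one_div_le_one_div hnn) B p.1)
  have h3 : {p : X | ¬ ENNReal.ofReal t ≤ dimH (T p.1)} ⊆ ⋃ n : ℕ, Bd n := by
    intro p hp
    by_contra hcon
    simp only [hBd, Set.mem_iUnion, Set.mem_ofPred_eq, not_exists, not_not] at hcon
    apply hp
    have h4 : ∀ δ' : ℝ, 0 < δ' → Good t δ' c (DD η 0 B p.1) := by
      intro δ' hδ'
      apply good_zero hB
      intro n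
      obtain ⟨m, hm⟩ := exists_nat_one_div_lt hδ'
      have h5 := hcon (max n m)
      have h6 : (1 : ℝ) / (((max n m : ℕ) : ℝ) + 1) ≤ 1 / ((n : ℝ) + 1) :=
        Nat.one_div_le_one_div (le_max_left _ _)
      have h7 : (1 : ℝ) / (((max n m : ℕ) : ℝ) + 1) ≤ 1 / ((m : ℝ) + 1) :=
        Nat.one_div_le_one_div (le_max_right _ _)
      exact (h5.mono (DD_mono h6 B p.1)).anti (h7.trans hm.le)
    exact (le_dimH_of_good ht hc (isCompact_DD hB p.1) h4).trans (dimH_mono (hT p.1))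
  refine le_trans (measure_mono h3) ?_
  rw [zero_add, hmono.measure_iUnion]
  exact iSup_le fun n => h2 _ (by positivity)

theorem DD_zero {η : ℝ} {B : Set ℂ} {f : C(unitInterval, ℂ)} :
    DD η 0 B f ⊆ {z | z ∈ B ∧ z ∈ DPt η f} := by
  rintro z ⟨hB, s, t, h1, h2, h3, u, hu, h4⟩
  exact ⟨hB, s, u, t, hu.1, hu.2, dist_le_zero.1 h2, dist_le_zero.1 h3, by linarith⟩

end Pool.Agent.TH966.DP
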