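import Pool.Agent.TH966.DP.LimL
import Pool.Agent.W92.DP.Dich
import Pool.Agent.W347.DPAA
import Pool.Agent.W571.DPad
import Pool.Agent.W462.DPL.C
import Pool.Agent.W598.DPplow
import Pool.Agent.W52.DPOne
import Pool.Agent.W52.DPTwo
import Pool.Agent.W347.DPGood
import Pool.Agent.W52.DPInd
import Pool.Agent.W571.DParms
import Pool.Agent.W801.DPdet

/-!
The dimension of the double points of the limits of the exploration path: assembly.
-/

set_option autoImplicit false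

namespace Pool.Agent.TH966.DP

open H984N MeasureTheory Filter Topology Pool.Agent.W92.DP
open scoped ENNReal

/-- The points which a curve visits at least twice. -/
def dbl (f : C(unitInterval, ℂ)) : Set ℂ := {z | ∃ s t : unitInterval, s < t ∧ f s = z ∧ f t = z}

theorem upper (R : Rect) {δ : ℕ → ℝ} (hδ : ∀ i, 0 < δ i) (hlim : Tendsto δ atTop (𝓝 0))
    {μ : ProbabilityMeasure X} (hμ : Tendsto (fun i => R.law (δ i)) atTop (𝓝 μ)) :
    ∀ᵐ p ∂(μ : Measure X), ∀ n : ℕ, dimH (DPt (1 / ((n : ℝ) + 1)) p.1 ∩ R.D) ≤ 3/4 := by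
  rw [ae_all_iff]
  intro n
  exact W462.DPL.limU st_U Pool.Agent.W347.DPAA.aa (Pool.Agent.W571.DPad.ad Pool.Agent.W347.DPAA.aa)
    R δ hδ hlim μ hμ _ (by positivity)

theorem good' : St_good :=
  Pool.Agent.W347.DPGood.good (Pool.Agent.W52.DPOne.one Pool.Agent.W598.DP.plow)
    (Pool.Agent.W52.DPTwo.two Pool.Agent.W347.DPAA.aa)

theorem lower (R : Rect) {δ : ℕ → ℝ} (hδ : ∀ i, 0 < δ i) (hlim : Tendsto δ atTop (𝓝 0))
    {μ : ProbabilityMeasure X} (hμ : Tendsto (fun i => R.law (δ i)) atTop (𝓝 μ)) :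
    ∀ᵐ p ∂(μ : Measure X), ∀ n k : ℕ, ENNReal.ofReal (3/4 - (1/2) / ((n : ℝ) + 1)) ≤
      dimH {z : ℂ | z ∈ R.D ∧ dist z 0 < 1 / ((k : ℝ) + 1) ∧
        ∃ η : ℝ, 0 < η ∧ z ∈ DPt η p.1} := by
  rw [ae_all_iff]
  intro n
  rw [ae_all_iff]
  intro k
  have hn : (1/2 : ℝ) / ((n : ℝ) + 1) ≤ 1/2 := by
    rw [div_le_iff₀ (by positivity)]
    have : (0:ℝ) ≤ n := Nat.cast_nonneg n
    linarith
  have hn2 : (0 : ℝ) < (1/2 : ℝ) / ((n : ℝ) + 1) := by positivity
  exact limL good' Pool.Agent.W52.DPInd.ind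
    (Pool.Agent.W801.DPdet.det Pool.Agent.W571.DParms.arms) R δ hδ hlim μ hμ _
    (by linarith) (by linarith) _ (by positivity)

theorem DPt_sub_dbl {η : ℝ} (hη : 0 < η) (f : C(unitInterval, ℂ)) : DPt η f ⊆ dbl f := by
  rintro z ⟨s, u, t, h1, h2, h3, h4, h5⟩
  refine ⟨s, t, lt_of_le_of_ne (h1.trans h2) ?_, h3, h4⟩
  rintro rfl
  have h6 : u = s := le_antisymm h2 h1
  rw [h6, h3, dist_self] at h5
  linarith

/-- Every double point of a curve which is not constant on intervals has an excursion. -/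
theorem dbl_sub {f : C(unitInterval, ℂ)} (hf : ∀ s t : unitInterval, s < t →
    dimH (f '' Set.Icc s t) = 7 / 4) : dbl f ⊆ ⋃ n : ℕ, DPt (1 / ((n : ℝ) + 1)) f := by
  rintro z ⟨s, t, hst, h1, h2⟩
  have h3 : ∃ u ∈ Set.Icc s t, f u ≠ z := by
    by_contra hcon
    push Not at hcon
    have h4 : f '' Set.Icc s t ⊆ {z} := by
      rintro w ⟨u, hu, rfl⟩
      exact hcon u hu
    have h5 := dimH_mono h4
    rw [hf s t hst, dimH_singleton] at h5
    exact absurd h5 (by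
      rw [not_le]
      exact ENNReal.div_pos (by norm_num) (by norm_num))
  obtain ⟨u, hu, h4⟩ := h3
  have h5 : 0 < dist (f u) z := dist_pos.mpr h4
  obtain ⟨n, hn⟩ := exists_nat_one_div_lt h5
  exact Set.mem_iUnion.mpr ⟨n, s, u, t, hu.1, hu.2, h1, h2, hn.le⟩

theorem three_quarters_le {x : ℝ≥0∞} (h : ∀ n : ℕ, ENNReal.ofReal (3/4 - (1/2) / ((n : ℝ) + 1)) ≤ x) :
    3/4 ≤ x := by
  have h1 : Tendsto (fun n : ℕ => ENNReal.ofReal (3/4 - (1/2) / ((n : ℝ) + 1))) atTop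
      (𝓝 (ENNReal.ofReal (3/4))) := by
    apply ENNReal.tendsto_ofReal
    have h2 : Tendsto (fun n : ℕ => (1/2 : ℝ) / ((n : ℝ) + 1)) atTop (𝓝 0) := by
      have := (tendsto_one_div_add_atTop_nhds_zero_nat (𝕜 := ℝ)).const_mul (1/2)
      rw [mul_zero] at this
      refine this.congr fun n => ?_
      ring
    have := h2.const_sub (3/4 : ℝ)
    rwa [sub_zero] at this
  have h2 := le_of_tendsto' h1 h
  refine le_trans (le_of_eq ?_) h2
  rw [ENNReal.ofReal_div_of_pos (by norm_num)]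
  norm_num

theorem solve {x : ℝ≥0∞} (h : 7 / 4 * x = 3 / 4) : x = 3 / 7 := by
  have hx : x ≠ ⊤ := by
    rintro rfl
    rw [ENNReal.mul_top (by simp)] at h
    exact absurd h.symm (by
      rw [← ne_eq]
      exact (ENNReal.div_lt_top (by norm_num) (by norm_num)).ne)
  have h2 := congrArg ENNReal.toReal h
  rw [ENNReal.toReal_mul, ENNReal.toReal_div, ENNReal.toReal_div] at h2
  have h3 : x.toReal = 3 / 7 := by
    norm_num at h2
    linarith
  rw [← ENNReal.ofReal_toReal hx, h3, ENNReal.ofReal_div_of_pos (by norm_num)]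
  norm_num

theorem two_thirds_le : (2 / 3 : ℝ≥0∞) ≤ 3 / 4 := by
  have e1 : (2 / 3 : ℝ≥0∞) = ENNReal.ofReal (2/3) := by
    rw [ENNReal.ofReal_div_of_pos (by norm_num)]; norm_num
  have e2 : (3 / 4 : ℝ≥0∞) = ENNReal.ofReal (3/4) := by
    rw [ENNReal.ofReal_div_of_pos (by norm_num)]; norm_num
  rw [e1, e2]
  exact ENNReal.ofReal_le_ofReal (by norm_num)

end Pool.Agent.TH966.DP
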