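import Pool.Agent.TH966.DP.DD
import Pool.Agent.H984R4.NP.ModelLem
import Pool.Agent.H984R4.NP.PL
import Pool.Agent.H973R2.Arm1

/-!
Lower bound for the dimension of the double points of the limits of the exploration path, near the
end point (the passage to the limit `St_limL`).
-/

set_option autoImplicit false

namespace Pool.Agent.TH966.DP

open H974 H12S Finset H389NS H984P H984N MeasureTheory Filter Topology
open Pool.Agent.W92.DP Pool.Agent.H389R2.Dim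
open scoped ENNReal NNReal

/-- The point of `δ ℤ²` which belongs to a vertex. -/
noncomputable def zp (δ : ℝ) (v : Vtx) : ℂ := ⟨δ * v.1, δ * (v.2 + 1)⟩

theorem dist_pos_zp {δ : ℝ} (hδ : 0 ≤ δ) (σ : St) : dist (pos δ σ) (zp δ σ.1) ≤ δ / 2 := by
  have h1 : |(pos δ σ).re - (zp δ σ.1).re| ≤ δ * (1/4) := by
    rw [ML.pos_re]
    have e : δ * ((σ.1.1 : ℝ) + ML.qx σ.2) - (zp δ σ.1).re = δ * ML.qx σ.2 := by
      simp only [zp]; ring
    rw [e, abs_mul, abs_of_nonneg hδ]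
    exact mul_le_mul_of_nonneg_left (ML.qx_le _) hδ
  have h2 : |(pos δ σ).im - (zp δ σ.1).im| ≤ δ * (1/4) := by
    rw [ML.pos_im]
    have e : δ * ((σ.1.2 : ℝ) + 1 + ML.qy σ.2) - (zp δ σ.1).im = δ * ML.qy σ.2 := by
      simp only [zp]; ring
    rw [e, abs_mul, abs_of_nonneg hδ]
    exact mul_le_mul_of_nonneg_left (ML.qy_le _) hδ
  refine (ML.dist_le_of h1 h2).trans ?_
  linarith

theorem le_dist_pos_zp {δ : ℝ} (hδ : 0 ≤ δ) (σ : St) (v : Vtx) :
    δ * ((sd σ.1 v : ℤ) : ℝ) - δ ≤ dist (pos δ σ) (zp δ v) := by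
  have h1 := le_dist_pos hδ σ (v, σ.2)
  have h2 := dist_pos_zp hδ ((v, σ.2) : St)
  have h3 := dist_triangle (pos δ σ) (zp δ v) (pos δ (v, σ.2))
  rw [dist_comm (zp δ v)] at h3
  have e : ((v, σ.2) : St).1 = v := rfl
  rw [e] at h1 h2
  have e2 : δ * (((sd σ.1 v : ℤ) : ℝ) - 1 / 2) = δ * ((sd σ.1 v : ℤ) : ℝ) - δ / 2 := by ring
  rw [e2] at h1
  linarith

theorem zp_dist {δ : ℝ} (hδ : 0 ≤ δ) (v w : Vtx) :
    δ * ((sd v w : ℤ) : ℝ) ≤ dist (zp δ v) (zp δ w) := by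
  rw [ML.sd_cast]
  have e1 : δ * |((v.1 - w.1 : ℤ) : ℝ)| = |(zp δ v).re - (zp δ w).re| := by
    simp only [zp]
    rw [← mul_sub, abs_mul, abs_of_nonneg hδ]
    push_cast
    rfl
  have e2 : δ * |((v.2 - w.2 : ℤ) : ℝ)| = |(zp δ v).im - (zp δ w).im| := by
    simp only [zp]
    rw [← mul_sub, abs_mul, abs_of_nonneg hδ]
    push_cast
    congr 2
    ring
  rcases max_choice |((v.1 - w.1 : ℤ) : ℝ)| |((v.2 - w.2 : ℤ) : ℝ)| with h | h
  · rw [h, e1]; exact ML.le_dist_re _ _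
  · rw [h, e2]; exact ML.le_dist_im _ _

theorem zp_inj {δ : ℝ} (hδ : 0 < δ) : Function.Injective (zp δ) := by
  intro v w h
  have h1 := congrArg Complex.re h
  have h2 := congrArg Complex.im h
  simp only [zp] at h1 h2
  have h3 := mul_left_cancel₀ hδ.ne' h1
  have h4 := mul_left_cancel₀ hδ.ne' h2
  refine Prod.ext (by exact_mod_cast h3) ?_
  have h5 : (v.2 : ℝ) = w.2 := by linarith
  exact_mod_cast h5

/-- The curve passes through the nodes. -/
theorem pl_node {N : ℕ} (p : ℕ → ℂ) {i : ℕ} (hN : 0 < N) (hi : i ≤ N) {s : unitInterval}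
    (hs : (s : ℝ) * N = i) : pl N p s = p i := by
  rcases Nat.lt_or_ge i N with h | h
  · rw [pl_seg h hs.ge (by rw [hs]; linarith), hs]
    simp
  · have h0 : i = N := le_antisymm hi h
    obtain ⟨k, rfl⟩ : ∃ k, N = k + 1 := ⟨N - 1, by omega⟩
    have hk : k < k + 1 := Nat.lt_succ_self k
    have hs' : (s : ℝ) * ((k + 1 : ℕ) : ℝ) = (k : ℝ) + 1 := by
      rw [hs, h0]; push_cast; ring
    rw [pl_seg hk (by rw [hs']; linarith) (by rw [hs']), hs', h0]
    push_cast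
    ring

/-- The time of a node. -/
noncomputable def nt (N i : ℕ) (hi : i ≤ N) : unitInterval :=
  ⟨(i : ℝ) / N, by positivity, by
    rcases Nat.eq_zero_or_pos N with h | h
    · subst h; simp
    · rw [div_le_one (by exact_mod_cast h)]; exact_mod_cast hi⟩

theorem nt_mul {N i : ℕ} (hN : 0 < N) (hi : i ≤ N) : (nt N i hi : ℝ) * N = i := by
  have : (N : ℝ) ≠ 0 := by exact_mod_cast hN.ne'
  show (i : ℝ) / N * N = i
  field_simp

theorem nt_le {N i j : ℕ} (hi : i ≤ N) (hj : j ≤ N) (hij : i ≤ j) : nt N i hi ≤ nt N j hj := by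
  show (i : ℝ) / N ≤ (j : ℝ) / N
  have : (i : ℝ) ≤ j := by exact_mod_cast hij
  exact div_le_div_of_nonneg_right this (Nat.cast_nonneg N)

/-- A vertex which is visited twice with an excursion in between. -/
theorem mem_DD (R : Rect) {δ : ℝ} (hδ : 0 < δ) (F : Finset Edg) {v : Vtx} {i j l : ℕ}
    (hij : i < j) (hjl : j < l) (hl : l ≤ (R.dm δ).len F) (h1 : ((R.dm δ).walk F i).1 = v)
    (h2 : ((R.dm δ).walk F l).1 = v) {u : ℝ} (h3 : u ≤ ((sd ((R.dm δ).walk F j).1 v : ℤ) : ℝ))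
    {η ε : ℝ} {B : Set ℂ} (hB : zp δ v ∈ B) (hε : δ ≤ ε) (hη : η ≤ δ * u) :
    zp δ v ∈ DD η ε B (R.curve δ F) := by
  have hN : 0 < (R.dm δ).len F := by omega
  have hc : ∀ (k : ℕ) (hk : k ≤ (R.dm δ).len F),
      R.curve δ F (nt _ k hk) = pos δ ((R.dm δ).walk F k) := by
    intro k hk
    exact pl_node (fun k => pos δ ((R.dm δ).walk F k)) hN hk (nt_mul hN hk)
  refine ⟨hB, nt _ i (by omega), nt _ l hl, nt_le _ _ (by omega), ?_, ?_, nt _ j (by omega),
    ⟨nt_le _ _ hij.le, nt_le _ _ hjl.le⟩, ?_⟩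
  · rw [hc, ← h1]
    refine (dist_pos_zp hδ.le _).trans ?_
    linarith
  · rw [hc, ← h2]
    refine (dist_pos_zp hδ.le _).trans ?_
    linarith
  · rw [hc]
    have h4 := le_dist_pos_zp hδ.le ((R.dm δ).walk F j) v
    have h5 := mul_le_mul_of_nonneg_left h3 hδ.le
    linarith

/-- The good event makes the set of approximate double points good. -/
theorem good_of_Gd (hdet : St_det) (R : Rect) {δ : ℝ} (hδ : 0 < δ) (hok : (R.dm δ).Ok)
    {F : Finset Edg} (hF : F ⊆ (R.dm δ).edges) {L m : ℕ} (hL : 2 ≤ L) (hm : 64 ≤ m)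
    (d1 : (R.dm δ).l < -(27 * (L * m : ℕ))) (d2 : 27 * (L * m : ℕ) < (R.dm δ).r)
    (d3 : 39 * (L * m : ℕ) < (R.dm δ).h) {c0 E0 t : ℝ} (h : Gd4 c0 E0 t L m F) (hc0 : 0 < c0)
    (hE0 : 0 < E0) (ht : 0 < t) {η ε' : ℝ} {B : Set ℂ}
    (hB : ∀ v ∈ core4 (L * m : ℕ), zp δ v ∈ B) (hε : δ ≤ ε')
    (hη : η ≤ δ * (15 * ((L * m : ℕ) : ℝ))) {κ : ℝ} (hκ : 0 < κ) (hκ' : κ ≤ δ * m) :
    Good t ε' (2 ^ (-t) / (E0 / c0 ^ 2 * κ ^ (-t))) (DD η ε' B (R.curve δ F)) := by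
  classical
  obtain ⟨⟨hGO, hGD⟩, hcard, hEn⟩ := h
  have hm' : (0:ℝ) < m := by
    have : 0 < m := by omega
    exact_mod_cast this
  have hcpos : (0 : ℝ) < ((V4 L m F).card : ℝ) := lt_of_lt_of_le (by positivity) hcard
  have hne : (V4 L m F).Nonempty := by
    rw [← Finset.card_pos]; exact_mod_cast hcpos
  have hε0 : 0 < ε' := hδ.trans_le hε
  refine good_of_energy hε0 ht.le (by positivity) ((V4 L m F).image (zp δ)) (hne.image _) ?_ ?_
  · intro z hz
    rw [Finset.mem_coe, Finset.mem_image] at hz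
    obtain ⟨v, hv, rfl⟩ := hz
    unfold V4 at hv
    rw [Finset.mem_filter] at hv
    obtain ⟨i, j, l, h1, h2, h3, h4, h5, h6⟩ :=
      hdet (R.dm δ) F hok hF L m hL hm d1 d2 d3 hGO hGD v hv.1 hv.2
    refine mem_DD R hδ F h1 h2 h3 h4 h5 (u := 15 * ((L * m : ℕ) : ℝ)) ?_ (hB v hv.1) hε hη
    have : ((15 * ((L * m : ℕ) : ℤ) : ℤ) : ℝ) ≤ ((sd ((R.dm δ).walk F j).1 v : ℤ) : ℝ) := by
      exact_mod_cast h6
    push_cast at this ⊢
    exact this
  · rw [Finset.sum_image (fun a _ b _ hab => zp_inj hδ hab),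
      Finset.card_image_of_injective _ (zp_inj hδ)]
    have e1 : ∀ v ∈ V4 L m F, ∑ y ∈ (V4 L m F).image (zp δ), (max (dist (zp δ v) y) ε') ^ (-t) ≤
        ∑ w ∈ V4 L m F, δ ^ (-t) * ((max (sd v w) 1 : ℤ) : ℝ) ^ (-t) := by
      intro v _
      rw [Finset.sum_image (fun a _ b _ hab => zp_inj hδ hab)]
      refine Finset.sum_le_sum fun w _ => ?_
      have hm : (1 : ℝ) ≤ ((max (sd v w) 1 : ℤ) : ℝ) := by
        exact_mod_cast le_max_right (sd v w) 1
      rw [← Real.mul_rpow (by positivity) (by linarith)]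
      refine Real.rpow_le_rpow_of_nonpos (by positivity) ?_ (by linarith)
      have h6 := zp_dist hδ.le v w
      rcases max_cases (sd v w) 1 with h | h
      · rw [h.1]; exact h6.trans (le_max_left _ _)
      · rw [h.1]; push_cast; rw [mul_one]
        exact hε.trans (le_max_right _ _)
    refine (Finset.sum_le_sum e1).trans ?_
    have e2 : ∑ v ∈ V4 L m F, ∑ w ∈ V4 L m F, δ ^ (-t) * ((max (sd v w) 1 : ℤ) : ℝ) ^ (-t)
        = δ ^ (-t) * En4 t L m F := by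
      unfold En4
      rw [Finset.mul_sum]
      refine Finset.sum_congr rfl fun v _ => ?_
      rw [Finset.mul_sum]
    rw [e2]
    have e3 : (c0 * (m : ℝ) ^ (3/4 : ℝ)) ^ 2 ≤ ((V4 L m F).card : ℝ) ^ 2 :=
      pow_le_pow_left₀ (by positivity) hcard 2
    have e4 : (c0 * (m : ℝ) ^ (3/4 : ℝ)) ^ 2 = c0 ^ 2 * (m : ℝ) ^ (3/2 : ℝ) := by
      rw [mul_pow, ← Real.rpow_natCast ((m : ℝ) ^ (3/4 : ℝ)) 2, ← Real.rpow_mul hm'.le]
      norm_num
    rw [e4] at e3
    have e6 : (δ * m) ^ (-t) ≤ κ ^ (-t) :=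
      Real.rpow_le_rpow_of_nonpos hκ hκ' (by linarith)
    calc δ ^ (-t) * En4 t L m F ≤ δ ^ (-t) * (E0 * (m : ℝ) ^ (3/2 - t)) :=
          mul_le_mul_of_nonneg_left hEn (by positivity)
      _ = E0 / c0 ^ 2 * (δ * m) ^ (-t) * (c0 ^ 2 * (m : ℝ) ^ (3/2 : ℝ)) := by
          have : (m : ℝ) ^ (3/2 - t) = (m:ℝ) ^ (-t) * (m : ℝ) ^ (3/2 : ℝ) := by
            rw [← Real.rpow_add hm']
            congr 1
            ring
          rw [this, Real.mul_rpow hδ.le hm'.le]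
          field_simp
      _ ≤ E0 / c0 ^ 2 * κ ^ (-t) * (c0 ^ 2 * (m : ℝ) ^ (3/2 : ℝ)) := by
          refine mul_le_mul_of_nonneg_right ?_ (by positivity)
          exact mul_le_mul_of_nonneg_left e6 (by positivity)
      _ ≤ E0 / c0 ^ 2 * κ ^ (-t) * ((V4 L m F).card : ℝ) ^ 2 :=
          mul_le_mul_of_nonneg_left e3 (by positivity)

theorem SA_sub {U : ℤ} {a b h : ℤ} (h1 : a ≤ -(27 * U)) (h2 : 27 * U ≤ b) (h3 : 39 * U ≤ h) :
    SA U ⊆ RE a b 0 h := by
  intro e he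
  unfold SA at he
  rw [H973.mem_ES] at he
  obtain ⟨g1, g2⟩ := he
  unfold HA at g1 g2
  rw [Finset.mem_filter, Finset.mem_product, Finset.mem_Icc, Finset.mem_Icc] at g1 g2
  apply H973.mem_RE_of_ends
  · unfold inR; omega
  · unfold inR; omega

theorem okh : Ok (fun _ : Edg => (1/2:ℝ)) := fun _ => ⟨by norm_num, by norm_num⟩

/-- the domain of the mesh `δ` contains the half boxes of size `u` -/
theorem dm_big (R : Rect) {δ μ : ℝ} (hδ : 0 < δ) (hA : μ ≤ R.A) (hB : μ ≤ R.B) (hH : μ ≤ R.H)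
    {n : ℕ} (h : δ * (39 * n) + 3 * δ < μ) :
    (R.dm δ).l < -(27 * (n : ℤ)) ∧ 27 * (n : ℤ) < (R.dm δ).r ∧ 39 * (n : ℤ) < (R.dm δ).h := by
  have fl : ((⌊-(R.A / δ)⌋ : ℤ) : ℝ) ≤ -(R.A / δ) := Int.floor_le _
  have cB : R.B / δ ≤ ((⌈R.B / δ⌉ : ℤ) : ℝ) := Int.le_ceil _
  have cH : R.H / δ ≤ ((⌈R.H / δ⌉ : ℤ) : ℝ) := Int.le_ceil _
  have hn : (0 : ℝ) ≤ n := Nat.cast_nonneg n
  have gA : 39 * (n : ℝ) + 3 < R.A / δ := by
    rw [lt_div_iff₀ hδ]; nlinarith
  have gB : 39 * (n : ℝ) + 3 < R.B / δ := by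
    rw [lt_div_iff₀ hδ]; nlinarith
  have gH : 39 * (n : ℝ) + 3 < R.H / δ := by
    rw [lt_div_iff₀ hδ]; nlinarith
  refine ⟨?_, ?_, ?_⟩
  · show ⌊-(R.A / δ)⌋ + 1 < -(27 * (n : ℤ))
    have : ((⌊-(R.A / δ)⌋ : ℤ) : ℝ) + 1 < -(27 * (n : ℝ)) := by linarith
    exact_mod_cast this
  · show 27 * (n : ℤ) < ⌈R.B / δ⌉ - 1
    have : 27 * (n : ℝ) < ((⌈R.B / δ⌉ : ℤ) : ℝ) - 1 := by linarith
    exact_mod_cast this
  · show 39 * (n : ℤ) < ⌈R.H / δ⌉ - 2
    have : 39 * (n : ℝ) < ((⌈R.H / δ⌉ : ℤ) : ℝ) - 2 := by linarith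
    exact_mod_cast this

theorem limL : St_limL := by
  intro hgood hind hdet R δ hδ hlim μ hμ t ht ht1 ρ hρ
  refine ae_dimX hμ ht (fun f => {z : ℂ | z ∈ R.D ∧ dist z 0 < ρ ∧ ∃ η : ℝ, 0 < η ∧ z ∈ DPt η f}) ?_
  intro ε hε
  obtain ⟨δ', hδ', hδε⟩ : ∃ δ : ℝ, 0 < δ ∧ ENNReal.ofReal δ ≤ ε := by
    rcases eq_or_ne ε ∞ with h | h
    · exact ⟨1, one_pos, by rw [h]; exact le_top⟩
    · exact ⟨ε.toReal, ENNReal.toReal_pos hε.ne' h, by rw [ENNReal.ofReal_toReal h]⟩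
  obtain ⟨L, M, c0, E0, p, hL, hM, hc0, hE0, hp, hp1, hg⟩ := hgood t ht ht1
  obtain ⟨J, hJ⟩ := exists_pow_lt_of_lt_one hδ' (show 1 - p < 1 by linarith)
  have hA := R.hA
  have hB := R.hB
  have hH := R.hH
  obtain ⟨ν, hν⟩ : ∃ ν, ν = min R.A (min R.B (min R.H ρ)) := ⟨_, rfl⟩
  have hν0 : 0 < ν := by
    rw [hν]; exact lt_min hA (lt_min hB (lt_min hH hρ))
  have hνA : ν ≤ R.A := by rw [hν]; exact min_le_left _ _
  have hνB : ν ≤ R.B := by rw [hν]; exact (min_le_right _ _).trans (min_le_left _ _)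
  have hνH : ν ≤ R.H := by
    rw [hν]; exact (min_le_right _ _).trans ((min_le_right _ _).trans (min_le_left _ _))
  have hνρ : ν ≤ ρ := by
    rw [hν]; exact (min_le_right _ _).trans ((min_le_right _ _).trans (min_le_right _ _))
  -- the sizes
  obtain ⟨Q, hQ⟩ : ∃ Q : ℝ, Q = L * M * 64 ^ J := ⟨_, rfl⟩
  have hL' : (2:ℝ) ≤ L := by exact_mod_cast hL
  have hM' : (64:ℝ) ≤ M := by exact_mod_cast hM
  have h64 : (1:ℝ) ≤ 64 ^ J := one_le_pow₀ (by norm_num)
  have hLM : (1:ℝ) ≤ L * M := by nlinarith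
  have hQ1 : 1 ≤ Q := by
    rw [hQ]
    exact one_le_mul_of_one_le_of_one_le hLM h64
  have hLMQ : (L * M : ℝ) ≤ Q := by
    rw [hQ]
    exact le_mul_of_one_le_right (by positivity) h64
  obtain ⟨s, hs⟩ : ∃ s : ℝ, s = ν / (80 * Q) := ⟨_, rfl⟩
  have hs0 : 0 < s := by rw [hs]; positivity
  have hQs : 80 * (Q * s) = ν := by
    rw [hs]; field_simp
  have hQs0 : 0 < Q * s := by positivity
  set B : Set ℂ := Set.Icc (-(10 * (Q * s))) 0 ×ℂ
    Set.Icc (17 * (L * M) * (s / 2)) (20 * (Q * s)) with hBdef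
  have hBc : IsCompact B := isCompact_Icc.reProdIm isCompact_Icc
  refine ⟨2 ^ (-t) / (E0 / c0 ^ 2 * (M * (s / 2)) ^ (-t)), 15 * (L * M) * (s / 2), B,
    by positivity, hBc, ?_, ?_⟩
  · intro f z hz
    obtain ⟨h1, h2⟩ := DD_zero hz
    rw [hBdef, Complex.mem_reProdIm, Set.mem_Icc, Set.mem_Icc] at h1
    obtain ⟨⟨b1, b2⟩, b3, b4⟩ := h1
    have b5 : 0 < 17 * (L * M) * (s / 2) := by positivity
    refine ⟨⟨by linarith, by linarith, by linarith, by linarith⟩, ?_,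
      15 * (L * M) * (s / 2), by positivity, h2⟩
    have h3 : dist z 0 ≤ 10 * (Q * s) + 20 * (Q * s) := by
      apply ML.dist_le_of
      · simp only [Complex.zero_re, sub_zero]
        rw [abs_le]; constructor <;> linarith
      · simp only [Complex.zero_im, sub_zero]
        rw [abs_le]; constructor <;> linarith
    linarith
  · intro ε' hε'
    obtain ⟨κ, S, δ0, hκ, hS, hδ0, hδ1, hsh⟩ := R.shape
    obtain ⟨δm, hδm⟩ : ∃ δm : ℝ, δm = min (min δ0 ε') (min (s / 2) (ν / 8)) := ⟨_, rfl⟩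
    have hδm0 : 0 < δm := by
      rw [hδm]
      exact lt_min (lt_min hδ0 hε') (lt_min (by positivity) (by positivity))
    have hev : ∀ᶠ i in atTop, δ i < δm := (tendsto_order.1 hlim).2 _ hδm0
    filter_upwards [hev] with i hi
    have hi0 : δ i ≤ δ0 := hi.le.trans (by
      rw [hδm]; exact (min_le_left _ _).trans (min_le_left _ _))
    have hi1 : δ i ≤ ε' := hi.le.trans (by
      rw [hδm]; exact (min_le_left _ _).trans (min_le_right _ _))
    have hi2 : δ i ≤ s / 2 := hi.le.trans (by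
      rw [hδm]; exact (min_le_right _ _).trans (min_le_left _ _))
    have hi3 : δ i ≤ ν / 8 := hi.le.trans (by
      rw [hδm]; exact (min_le_right _ _).trans (min_le_right _ _))
    have hδi := hδ i
    set d : ℝ := δ i with hd
    have hopen : IsOpen {γ : X | ¬ Good t ε' (2 ^ (-t) / (E0 / c0 ^ 2 * (M * (s / 2)) ^ (-t)))
        (DD (15 * (L * M) * (s / 2)) ε' B γ.1)} :=
      ((isClosed_good_DD hBc).preimage continuous_fst).isOpen_compl
    rw [R.law_apply d hopen.measurableSet]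
    refine le_trans (ENNReal.ofReal_le_ofReal ?_) hδε
    -- the lattice scale
    obtain ⟨r, hr⟩ : ∃ r : ℕ, r = ⌊s / d⌋₊ := ⟨_, rfl⟩
    have hr1 : d * r ≤ s := by
      have := Nat.floor_le (show 0 ≤ s / d by positivity)
      rw [← hr, le_div_iff₀ hδi] at this
      linarith
    have hr2 : s / 2 ≤ d * r := by
      have := Nat.lt_floor_add_one (s / d)
      rw [← hr, div_lt_iff₀ hδi] at this
      nlinarith
    have hr3 : 1 ≤ r := by
      rcases Nat.eq_zero_or_pos r with h | h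
      · rw [h] at hr2; simp at hr2; linarith
      · exact h
    have hscale : ∀ j < J, ((L * (M * (64 ^ j * r)) : ℕ) : ℝ) ≤ Q * r := by
      intro j hj
      push_cast
      have h1 : (64 : ℝ) ^ j ≤ 64 ^ J := pow_le_pow_right₀ (by norm_num) hj.le
      have h2 : (0:ℝ) ≤ r := Nat.cast_nonneg r
      rw [hQ]
      calc (L:ℝ) * (M * (64 ^ j * r)) = L * M * r * 64 ^ j := by ring
        _ ≤ L * M * r * 64 ^ J := mul_le_mul_of_nonneg_left h1 (by positivity)
        _ = L * M * 64 ^ J * r := by ring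
    have hscale2 : ∀ j : ℕ, (L * M : ℝ) * r ≤ ((L * (M * (64 ^ j * r)) : ℕ) : ℝ) := by
      intro j
      push_cast
      have h1 : (1 : ℝ) ≤ 64 ^ j := one_le_pow₀ (by norm_num)
      calc (L * M : ℝ) * r = L * M * r * 1 := by ring
        _ ≤ L * M * r * 64 ^ j := mul_le_mul_of_nonneg_left h1 (by positivity)
        _ = (L:ℝ) * (M * (64 ^ j * r)) := by ring
    have hdom : ∀ j < J, (R.dm d).l < -(27 * ((L * (M * (64 ^ j * r)) : ℕ) : ℤ)) ∧
        27 * ((L * (M * (64 ^ j * r)) : ℕ) : ℤ) < (R.dm d).r ∧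
        39 * ((L * (M * (64 ^ j * r)) : ℕ) : ℤ) < (R.dm d).h := by
      intro j hj
      refine dm_big R hδi hνA hνB hνH ?_
      have h1 := mul_le_mul_of_nonneg_left (hscale j hj) hδi.le
      have h2 : d * (Q * r) ≤ Q * s := by
        calc d * (Q * r) = Q * (d * r) := by ring
          _ ≤ Q * s := mul_le_mul_of_nonneg_left hr1 (by linarith)
      nlinarith
    have hsub : ∀ j < J, SA (L * (M * (64 ^ j * r)) : ℕ) ⊆ (R.dm d).edges := by
      intro j hj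
      obtain ⟨h1, h2, h3⟩ := hdom j hj
      exact SA_sub h1.le h2.le h3.le
    have hI := hind p c0 E0 t L M r hp1 hL hM hr3 hg J (R.dm d).edges hsub
    refine le_trans ?_ (hI.trans hJ.le)
    have hok := (hsh d hδi hi0).ok
    apply Pr_mono okh
    intro F hF hbad j hj hG
    apply hbad
    obtain ⟨h1, h2, h3⟩ := hdom j hj
    have hm : 64 ≤ M * (64 ^ j * r) := by
      have h4 : 1 ≤ 64 ^ j * r := Nat.one_le_iff_ne_zero.mpr (by positivity)
      nlinarith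
    have hδU : d * ((L * (M * (64 ^ j * r)) : ℕ) : ℝ) ≤ Q * s := by
      have h4 := mul_le_mul_of_nonneg_left (hscale j hj) hδi.le
      have h5 : d * (Q * r) ≤ Q * s := by
        calc d * (Q * r) = Q * (d * r) := by ring
          _ ≤ Q * s := mul_le_mul_of_nonneg_left hr1 (by linarith)
      linarith
    have hδU2 : (L * M) * (s / 2) ≤ d * ((L * (M * (64 ^ j * r)) : ℕ) : ℝ) := by
      have h4 := mul_le_mul_of_nonneg_left (hscale2 j) hδi.le
      have h5 : (L * M : ℝ) * (s / 2) ≤ L * M * (d * r) :=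
        mul_le_mul_of_nonneg_left hr2 (by positivity)
      linarith
    refine good_of_Gd hdet R hδi hok hF hL hm h1 h2 h3 hG hc0 hE0 ht ?_ hi1 ?_ (by positivity) ?_
    · intro v hv
      unfold core4 at hv
      rw [Finset.mem_product, Finset.mem_Icc, Finset.mem_Icc] at hv
      obtain ⟨⟨v1, v2⟩, v3, v4⟩ := hv
      set U : ℕ := L * (M * (64 ^ j * r)) with hU
      have hU0 : (0:ℝ) ≤ U := Nat.cast_nonneg U
      have v1' : -(10 * (U : ℝ)) ≤ v.1 := by exact_mod_cast v1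
      have v2' : (v.1 : ℝ) ≤ -(8 * (U : ℝ)) := by exact_mod_cast v2
      have v3' : 17 * (U : ℝ) ≤ v.2 := by exact_mod_cast v3
      have v4' : (v.2 : ℝ) ≤ 19 * (U : ℝ) := by exact_mod_cast v4
      have w1 := mul_le_mul_of_nonneg_left v1' hδi.le
      have w2 := mul_le_mul_of_nonneg_left v2' hδi.le
      have w3 := mul_le_mul_of_nonneg_left v3' hδi.le
      have w4 := mul_le_mul_of_nonneg_left v4' hδi.le
      have w0 : 0 ≤ d * (U : ℝ) := by positivity
      have hsQ : s ≤ Q * s := le_mul_of_one_le_left hs0.le hQ1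
      rw [hBdef, Complex.mem_reProdIm, Set.mem_Icc, Set.mem_Icc]
      have er : (zp d v).re = d * v.1 := rfl
      have ei : (zp d v).im = d * v.2 + d := by
        show d * ((v.2 : ℝ) + 1) = d * v.2 + d
        ring
      rw [er, ei]
      refine ⟨⟨by linarith, by linarith⟩, by linarith, by linarith⟩
    · linarith
    · push_cast
      have h4 : (1 : ℝ) ≤ 64 ^ j := one_le_pow₀ (by norm_num)
      calc (M:ℝ) * (s / 2) ≤ M * (d * r) := mul_le_mul_of_nonneg_left hr2 (by positivity)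
        _ = d * (M * r) * 1 := by ring
        _ ≤ d * (M * r) * 64 ^ j := mul_le_mul_of_nonneg_left h4 (by positivity)
        _ = d * (M * (64 ^ j * r)) := by ring

end Pool.Agent.TH966.DP
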